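import Pool.Agent.ACK.StmtsC

/-!
# Row PAR of squad ACK: the parities
-/

set_option autoImplicit false

namespace Pool.Agent.ACK.H86

open Pool.Agent.ACK Pool.Agent.ACK.C

/-! ### congruence -/

theorem wrel_congr {p p' : ℕ → Bool} : ∀ L : List (ℕ × ℕ × Bool × ℕ),
    (∀ q ∈ L, p q.2.2.2 = p' q.2.2.2) → wrel p L = wrel p' L
  | [], _ => rfl
  | (x, y, d, e) :: L, h => by
    have h1 : p e = p' e := h (x, y, d, e) List.mem_cons_self
    have h2 := wrel_congr L fun q hq => h q (List.mem_cons_of_mem _ hq)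
    simp only [wrel, h1, h2]

theorem mem_chs : ∀ (r : List Tk) (q : ℕ × ℕ × Bool × ℕ), q ∈ chs r → ∃ t ∈ r, t.1 = q.2.2.2
  | [], q, h => absurd h (List.not_mem_nil)
  | t :: r, q, h => by
    unfold chs at h
    split at h
    · obtain ⟨u, hu, hq⟩ := mem_chs r q h
      exact ⟨u, List.mem_cons_of_mem _ hu, hq⟩
    · rcases List.mem_cons.1 h with h1 | h1
      · exact ⟨t, List.mem_cons_self, by rw [h1]⟩
      · obtain ⟨u, hu, hq⟩ := mem_chs r q h1
        exact ⟨u, List.mem_cons_of_mem _ hu, hq⟩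

theorem wn_congr {p p' : ℕ → Bool} (r : List Tk) (h : ∀ t ∈ r, p t.1 = p' t.1) :
    wn p r = wn p' r := by
  have h1 : wrel p (chs r) = wrel p' (chs r) := by
    refine wrel_congr _ fun q hq => ?_
    obtain ⟨t, ht, he⟩ := mem_chs r q hq
    rw [← he]
    exact h t ht
  unfold wn
  rw [h1]

/-- the members of `sy b` have names of `b` -/
theorem mem_sy {b l : List Tk} (hl : l ∈ sy b) {t : Tk} (ht : t ∈ l) : ∃ u ∈ b, u.1 = t.1 := by
  unfold sy at hl
  rcases List.mem_append.1 hl with h | h
  · obtain ⟨k, -, rfl⟩ := List.mem_map.1 h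
    exact ⟨t, List.mem_rotate.1 ht, rfl⟩
  · obtain ⟨k, -, rfl⟩ := List.mem_map.1 h
    have h1 : t ∈ rvs b := List.mem_rotate.1 ht
    unfold rvs at h1
    obtain ⟨u, hu, rfl⟩ := List.mem_map.1 (List.mem_reverse.1 h1)
    exact ⟨u, hu, rfl⟩

theorem par_congr {p p' : ℕ → Bool} {l B : List Tk} (h : ∀ t ∈ l, p t.1 = p' t.1)
    (hp : par p pE l B = true) : par p' pE l B = true := by
  unfold par at hp ⊢
  rw [List.all_eq_true] at hp ⊢
  intro u hu
  have h1 := hp u hu
  have h2 : u.1 ∈ l := (List.of_mem_zip hu).1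
  rw [← h u.1 h2]
  exact h1

theorem fin_congr {p p' : ℕ → Bool} (b : List Tk) (h : ∀ t ∈ b, p t.1 = p' t.1)
    (hf : C.fin p b.reverse = true) : C.fin p' b.reverse = true := by
  have h1 : wn p b.reverse = wn p' b.reverse :=
    wn_congr _ fun t ht => h t (List.mem_reverse.1 ht)
  unfold C.fin at hf ⊢
  rw [h1, List.reverse_reverse] at hf
  rw [List.reverse_reverse]
  rcases (Bool.or_eq_true _ _).mp hf with h2 | h2
  · exact (Bool.or_eq_true _ _).mpr (Or.inl h2)
  · refine (Bool.or_eq_true _ _).mpr (Or.inr ?_)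
    rcases (Bool.or_eq_true _ _).mp h2 with h3 | h3
    · refine (Bool.or_eq_true _ _).mpr (Or.inl ?_)
      obtain ⟨l, hl, h4⟩ := List.any_eq_true.1 h3
      refine List.any_eq_true.2 ⟨l, hl, ?_⟩
      obtain ⟨h5, h6⟩ := (Bool.and_eq_true _ _).mp h4
      refine (Bool.and_eq_true _ _).mpr ⟨h5, par_congr (fun t ht => ?_) h6⟩
      obtain ⟨u, hu, he⟩ := mem_sy hl ht
      rw [← he]
      exact h u hu
    · exact (Bool.or_eq_true _ _).mpr (Or.inr h3)

/-! ### counting -/

theorem sum_six (L : List ℕ) (hL : ∀ x ∈ L, x < 6) (f : ℕ → ℕ) :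
    (L.map f).sum = ∑ e ∈ Finset.range 6, L.count e * f e := by
  induction L with
  | nil => simp
  | cons a L ih =>
    have ha : a < 6 := hL a List.mem_cons_self
    rw [List.map_cons, List.sum_cons, ih fun x hx => hL x (List.mem_cons_of_mem _ hx)]
    have h1 : ∀ e ∈ Finset.range 6, (a :: L).count e * f e =
        L.count e * f e + if e = a then f a else 0 := by
      intro e _
      rw [List.count_cons]
      by_cases h : e = a
      · subst h
        simp only [beq_self_eq_true, if_true]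
        ring
      · have h2 : (a == e) = false := by
          rw [beq_eq_false_iff_ne]
          exact fun h3 => h h3.symm
        simp only [h2, h, if_false]
        simp
    rw [Finset.sum_congr rfl h1, Finset.sum_add_distrib, Finset.sum_ite_eq' (Finset.range 6) a
      (fun _ => f a), if_pos (Finset.mem_range.2 ha)]
    omega

theorem evp_mem (p0 p1 p2 p3 p4 p5 : Bool)
    (h : (([p0, p1, p2, p3, p4, p5].filter id).length % 2 == 0) = true) :
    [p0, p1, p2, p3, p4, p5] ∈ evp := by
  unfold evp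
  refine List.mem_filter.2 ⟨?_, h⟩
  clear h
  revert p0 p1 p2 p3 p4 p5
  decide

theorem six_parity (p0 p1 p2 p3 p4 p5 : Bool) (n0 n1 n2 n3 n4 n5 : ℕ)
    (h0 : p0 = decide (Odd n0)) (h1 : p1 = decide (Odd n1)) (h2 : p2 = decide (Odd n2))
    (h3 : p3 = decide (Odd n3)) (h4 : p4 = decide (Odd n4)) (h5 : p5 = decide (Odd n5))
    (h : Even (n0 + n1 + n2 + n3 + n4 + n5)) :
    (([p0, p1, p2, p3, p4, p5].filter id).length % 2 == 0) = true := by
  have key : ∀ (n : ℕ) (p : Bool), p = decide (Odd n) → n % 2 = if p = true then 1 else 0 := by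
    intro n p hp
    rw [hp]
    by_cases hn : Odd n
    · rw [decide_eq_true hn, if_pos rfl]
      exact Nat.odd_iff.1 hn
    · rw [decide_eq_false hn, if_neg Bool.false_ne_true]
      exact Nat.not_odd_iff.1 hn
  have k0 := key n0 p0 h0
  have k1 := key n1 p1 h1
  have k2 := key n2 p2 h2
  have k3 := key n3 p3 h3
  have k4 := key n4 p4 h4
  have k5 := key n5 p5 h5
  have hs : (n0 + n1 + n2 + n3 + n4 + n5) % 2 = 0 := Nat.even_iff.1 h
  have hq : ((if p0 = true then 1 else 0) + (if p1 = true then 1 else 0) +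
      (if p2 = true then 1 else 0) + (if p3 = true then 1 else 0) + (if p4 = true then 1 else 0) +
      (if p5 = true then 1 else 0) : ℕ) % 2 = 0 := by
    rw [← k0, ← k1, ← k2, ← k3, ← k4, ← k5]
    omega
  clear k0 k1 k2 k3 k4 k5 key h0 h1 h2 h3 h4 h5
  revert hq
  revert p0 p1 p2 p3 p4 p5
  decide

/-- **PAR.** -/
theorem parRow (cwg : CwgStmt) : ParStmt := by
  intro c C b s hc hS hb hnpr hfin
  obtain ⟨-, hlen, -⟩ := cwg C b hS.cw
  rw [hS.kn.len] at hlen
  -- the names
  have hL : ∀ x ∈ b.map Prod.fst, x < 6 := by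
    intro x hx
    obtain ⟨t, ht, rfl⟩ := List.mem_map.1 hx
    exact hb t ht
  have hs1 := sum_six (b.map Prod.fst) hL (fun _ => 1)
  have hs2 := sum_six (b.map Prod.fst) hL (fun e => (C e).length)
  have e1 : ((b.map Prod.fst).map fun _ => 1).sum = 12 := by
    rw [List.map_map]
    have : ((b.map ((fun _ => 1) ∘ Prod.fst)) : List ℕ) = List.replicate b.length 1 := by
      rw [List.eq_replicate_iff]
      refine ⟨by simp, fun x hx => ?_⟩
      obtain ⟨t, -, rfl⟩ := List.mem_map.1 hx
      rfl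
    rw [this, List.sum_replicate, hS.len]
    rfl
  have e2 : ((b.map Prod.fst).map fun e => (C e).length).sum = 2 * c := by
    rw [List.map_map, hlen]
    rfl
  rw [e1] at hs1
  rw [e2] at hs2
  have hcnt : ∀ e, (b.map Prod.fst).count e ≤ 2 := by
    intro e
    by_cases he : e ∈ b.map Prod.fst
    · exact (hS.cw.tw e he).le
    · rw [List.count_eq_zero_of_not_mem he]
      omega
  have c0 := hcnt 0
  have c1 := hcnt 1
  have c2 := hcnt 2
  have c3 := hcnt 3
  have c4 := hcnt 4
  have c5 := hcnt 5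
  simp only [Finset.sum_range_succ, Finset.sum_range_zero, zero_add, mul_one] at hs1 hs2
  have d0 : (b.map Prod.fst).count 0 = 2 := by omega
  have d1 : (b.map Prod.fst).count 1 = 2 := by omega
  have d2 : (b.map Prod.fst).count 2 = 2 := by omega
  have d3 : (b.map Prod.fst).count 3 = 2 := by omega
  have d4 : (b.map Prod.fst).count 4 = 2 := by omega
  have d5 : (b.map Prod.fst).count 5 = 2 := by omega
  rw [d0, d1, d2, d3, d4, d5] at hs2
  have hcs : (C 0).length + (C 1).length + (C 2).length + (C 3).length + (C 4).length +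
      (C 5).length = c := by omega
  -- the list of the parities
  have hmem := evp_mem _ _ _ _ _ _ (six_parity _ _ _ _ _ _ (C 0).length (C 1).length (C 2).length
    (C 3).length (C 4).length (C 5).length rfl rfl rfl rfl rfl rfl (by rw [hcs]; exact hc))
  unfold finall at hfin
  rw [hnpr, Bool.false_or, List.all_eq_true] at hfin
  have h1 := hfin _ hmem
  refine fin_congr b (fun t ht => ?_) h1
  have ht6 := hb t ht
  generalize t.1 = e at ht6
  interval_cases e <;> rfl

end Pool.Agent.ACK.H86
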